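import Mathlib

namespace Pool.Agent.Results.MP_55e6a3_gt.ClosedImage

open Set Cardinal Topology TopologicalSpace

/-- A space is weakly theta-refinable if every open cover `U` has an open refinement which is a
union of countably many families `V n` such that every point `x` lies in at least one and only
finitely many members of some `V n`. -/
def WeaklyThetaRefinable (X : Type) [TopologicalSpace X] : Prop :=
  ∀ U : Set (Set X), (∀ u ∈ U, IsOpen u) → ⋃₀ U = Set.univ →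
    ∃ V : ℕ → Set (Set X), (∀ n, ∀ v ∈ V n, IsOpen v ∧ ∃ u ∈ U, v ⊆ u) ∧
      ∀ x, ∃ n, {v | v ∈ V n ∧ x ∈ v}.Nonempty ∧ {v | v ∈ V n ∧ x ∈ v}.Finite

/-- Sanity check: compact spaces are weakly theta-refinable. -/
theorem weaklyThetaRefinable_of_compact (X : Type) [TopologicalSpace X] [CompactSpace X] :
    WeaklyThetaRefinable X := by
  intro U hU hcov
  obtain ⟨F, hF, hfin, hFc⟩ := isCompact_univ.elim_finite_subcover_image (b := U) (c := id) hU
    (by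
      intro x hx
      rw [← hcov] at hx
      obtain ⟨u, hu, hxu⟩ := hx
      exact Set.mem_biUnion hu hxu)
  refine ⟨fun _ => F, fun _ v hv => ⟨hU v (hF hv), v, hF hv, subset_rfl⟩, fun x => ⟨0, ?_, ?_⟩⟩
  · obtain ⟨v, hv, hxv⟩ := Set.mem_iUnion₂.mp (hFc (Set.mem_univ x))
    exact ⟨v, hv, hxv⟩
  · exact hfin.subset (fun v hv => hv.1)

section Walks

set_option linter.unusedSectionVars false

variable {W Ω : Type} [LinearOrder W] [WellFoundedLT W] [LinearOrder Ω] [WellFoundedLT Ω]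

/-- `d` has uncountable cofinality: every countable set of smaller points is bounded below `d`. -/
def Lim (d : W) : Prop :=
  ∀ A : Set W, A.Countable → (∀ a ∈ A, a < d) → ∃ g, g < d ∧ ∀ a ∈ A, a < g

omit [WellFoundedLT W] in
theorem Lim.exists_lt {d : W} (h : Lim d) : ∃ g, g < d := by
  obtain ⟨g, hg, -⟩ := h ∅ Set.countable_empty (fun a ha => absurd ha (Set.notMem_empty a))
  exact ⟨g, hg⟩

/-- records of the enumeration `e d` of the points below `d`. -/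
def Rec (e : W → W → Ω) (d x : W) : Prop := x < d ∧ ∀ z, z < d → e d z < e d x → z < x

theorem rec_cof (e : W → W → Ω) {d y : W} (hy : y < d) : ∃ x, Rec e d x ∧ y ≤ x := by
  obtain ⟨x, ⟨hx1, hx2⟩, hx3⟩ := WellFounded.has_min
    (InvImage.wf (e d) (wellFounded_lt : WellFounded ((· < ·) : Ω → Ω → Prop)))
    {z : W | y ≤ z ∧ z < d} ⟨y, le_refl y, hy⟩
  refine ⟨x, ⟨hx2, fun z hz hzx => ?_⟩, hx1⟩
  by_contra hcon
  have hxz : x ≤ z := not_lt.mp hcon
  exact hx3 z ⟨hx1.trans hxz, hz⟩ hzx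

theorem rec_countable (e : W → W → Ω) (hinj : ∀ d, Set.InjOn (e d) (Set.Iio d))
    (hΩ : ∀ i : Ω, (Set.Iic i).Countable) {d b : W} (hb : b < d) :
    {x : W | Rec e d x ∧ x < b}.Countable := by
  have h1 : {x : W | Rec e d x ∧ x < b} ⊆ {x : W | x < d ∧ e d x ≤ e d b} := by
    rintro x ⟨⟨hx1, hx2⟩, hx3⟩
    refine ⟨hx1, ?_⟩
    by_contra hcon
    exact absurd (hx2 b hb (not_le.mp hcon)) (not_lt.mpr hx3.le)
  refine Set.Countable.mono h1 ?_
  refine Set.countable_of_injective_of_countable_image (f := e d) ?_ ?_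
  · exact (hinj d).mono (fun x hx => hx.1)
  · refine (hΩ (e d b)).mono ?_
    rintro _ ⟨x, hx, rfl⟩
    exact hx.2

/-- first record of `d` which is at least `y` -/
noncomputable def step (e : W → W → Ω) (d y : W) : W :=
  open Classical in
  if h : {x : W | Rec e d x ∧ y ≤ x}.Nonempty then
    (wellFounded_lt : WellFounded ((· < ·) : W → W → Prop)).min {x : W | Rec e d x ∧ y ≤ x} h
  else d

theorem step_spec (e : W → W → Ω) {d y : W} (hy : y < d) :
    Rec e d (step e d y) ∧ y ≤ step e d y ∧ ∀ x, Rec e d x → y ≤ x → step e d y ≤ x := by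
  have h : {x : W | Rec e d x ∧ y ≤ x}.Nonempty := rec_cof e hy
  have h1 : step e d y = (wellFounded_lt : WellFounded ((· < ·) : W → W → Prop)).min
      {x : W | Rec e d x ∧ y ≤ x} h := by
    unfold step
    rw [dif_pos h]
  have h2 := WellFounded.min_mem (wellFounded_lt : WellFounded ((· < ·) : W → W → Prop))
      {x : W | Rec e d x ∧ y ≤ x} h
  rw [← h1] at h2
  refine ⟨h2.1, h2.2, fun x hx hyx => ?_⟩
  rw [h1]
  exact not_lt.mp (WellFounded.not_lt_min _ _ (show x ∈ {x : W | Rec e d x ∧ y ≤ x} from ⟨hx, hyx⟩))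

/-- number of steps of the walk from `d` down to `y` -/
noncomputable def rho (e : W → W → Ω) (y : W) : W → ℕ :=
  open Classical in
  (wellFounded_lt : WellFounded ((· < ·) : W → W → Prop)).fix
    (fun d F => if h : y < d ∧ step e d y < d then F (step e d y) h.2 + 1 else 0)

theorem rho_def (e : W → W → Ω) (y d : W) : rho e y d =
    (open Classical in if y < d ∧ step e d y < d then rho e y (step e d y) + 1 else 0) := by
  classical
  unfold rho
  rw [WellFounded.fix_eq]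
  by_cases h : y < d ∧ step e d y < d
  · rw [dif_pos h, if_pos h]
  · rw [dif_neg h, if_neg h]

theorem rho_lt (e : W → W → Ω) {y d : W} (hy : y < d) :
    rho e y d = rho e y (step e d y) + 1 := by
  rw [rho_def]
  rw [if_pos ⟨hy, (step_spec e hy).1.1⟩]

theorem rho_self (e : W → W → Ω) (d : W) : rho e d d = 0 := by
  rw [rho_def]
  rw [if_neg (fun h => lt_irrefl d h.1)]

theorem rho_eq_zero (e : W → W → Ω) {y d : W} (hy : y ≤ d) (h : rho e y d = 0) : y = d := by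
  rcases hy.lt_or_eq with h1 | h1
  · rw [rho_lt e h1] at h
    exact absurd h (Nat.succ_ne_zero _)
  · exact h1

theorem rho_add (e : W → W → Ω) (hinj : ∀ d, Set.InjOn (e d) (Set.Iio d))
    (hΩ : ∀ i : Ω, (Set.Iic i).Countable) {c : W} (hc : Lim c) :
    ∀ d, c ≤ d → ∃ g, g < c ∧ ∀ y, g < y → y ≤ c → rho e y d = rho e y c + rho e c d := by
  intro d
  induction d using WellFoundedLT.induction with
  | ind d ih =>
    intro hcd
    rcases hcd.lt_or_eq with h | h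
    · obtain ⟨g0, hg0, hg0'⟩ := hc {x : W | Rec e d x ∧ x < c} (rec_countable e hinj hΩ h)
        (fun a ha => ha.2)
      obtain ⟨hs1, hs2, hs3⟩ := step_spec e h
      obtain ⟨g1, hg1, hg1'⟩ := ih (step e d c) hs1.1 hs2
      refine ⟨max g0 g1, max_lt hg0 hg1, fun y hy hyc => ?_⟩
      have hyd : y < d := lt_of_le_of_lt hyc h
      obtain ⟨ht1, ht2, ht3⟩ := step_spec e hyd
      have hst : step e d y = step e d c := by
        apply le_antisymm
        · exact ht3 _ hs1 (hyc.trans hs2)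
        · apply hs3 _ ht1
          by_contra hcon
          have h3 := hg0' (step e d y) ⟨ht1, not_le.mp hcon⟩
          exact absurd (lt_of_le_of_lt ht2 h3) (not_lt.mpr ((le_max_left g0 g1).trans hy.le))
      rw [rho_lt e hyd, rho_lt e h, hst, hg1' y (lt_of_le_of_lt (le_max_right g0 g1) hy) hyc]
      omega
    · subst h
      obtain ⟨g, hg⟩ := hc.exists_lt
      refine ⟨g, hg, fun y _ _ => ?_⟩
      rw [rho_self]
      rfl

end Walks

section Spaces

variable {W Ω : Type} [LinearOrder W] [WellFoundedLT W] [LinearOrder Ω] [WellFoundedLT Ω]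

/-- The set `W × ℕ` underlying the domain. -/
@[ext] structure PX (e : W → W → Ω) where
  pt : W
  lev : ℕ

/-- basic neighbourhoods in the domain -/
def nbX (e : W → W → Ω) (g : W) (p : PX e) : Set (PX e) :=
  {q | g < q.pt ∧ q.pt ≤ p.pt ∧ q.lev + rho e q.pt p.pt = p.lev}

theorem mem_nbX {e : W → W → Ω} {g : W} {p q : PX e} :
    q ∈ nbX e g p ↔ g < q.pt ∧ q.pt ≤ p.pt ∧ q.lev + rho e q.pt p.pt = p.lev := Iff.rfl

instance topX (e : W → W → Ω) : TopologicalSpace (PX e) where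
  IsOpen U := ∀ p ∈ U, Lim p.pt → ∃ g, g < p.pt ∧ nbX e g p ⊆ U
  isOpen_univ := fun p _ hp => by
    obtain ⟨g, hg⟩ := hp.exists_lt
    exact ⟨g, hg, Set.subset_univ _⟩
  isOpen_inter := fun U V hU hV p hp hl => by
    obtain ⟨g1, hg1, h1⟩ := hU p hp.1 hl
    obtain ⟨g2, hg2, h2⟩ := hV p hp.2 hl
    refine ⟨max g1 g2, max_lt hg1 hg2, fun q hq => ⟨h1 ?_, h2 ?_⟩⟩
    · exact ⟨lt_of_le_of_lt (le_max_left _ _) hq.1, hq.2⟩
    · exact ⟨lt_of_le_of_lt (le_max_right _ _) hq.1, hq.2⟩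
  isOpen_sUnion := fun S hS p hp hl => by
    obtain ⟨U, hU, hpU⟩ := hp
    obtain ⟨g, hg, h1⟩ := hS U hU p hpU hl
    exact ⟨g, hg, fun q hq => ⟨U, hU, h1 hq⟩⟩

theorem isOpenX_iff {e : W → W → Ω} {U : Set (PX e)} :
    IsOpen U ↔ ∀ p ∈ U, Lim p.pt → ∃ g, g < p.pt ∧ nbX e g p ⊆ U := Iff.rfl

/-- The set `W` underlying the image. -/
@[ext] structure PY (W : Type) where
  pt : W

instance topY (W : Type) [LinearOrder W] : TopologicalSpace (PY W) where
  IsOpen U := ∀ p ∈ U, Lim p.pt → ∃ g, g < p.pt ∧ ∀ q : PY W, g < q.pt → q.pt ≤ p.pt → q ∈ U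
  isOpen_univ := fun p _ hp => by
    obtain ⟨g, hg⟩ := hp.exists_lt
    exact ⟨g, hg, fun q _ _ => Set.mem_univ _⟩
  isOpen_inter := fun U V hU hV p hp hl => by
    obtain ⟨g1, hg1, h1⟩ := hU p hp.1 hl
    obtain ⟨g2, hg2, h2⟩ := hV p hp.2 hl
    refine ⟨max g1 g2, max_lt hg1 hg2, fun q hq hq' => ⟨h1 q ?_ hq', h2 q ?_ hq'⟩⟩
    · exact lt_of_le_of_lt (le_max_left _ _) hq
    · exact lt_of_le_of_lt (le_max_right _ _) hq
  isOpen_sUnion := fun S hS p hp hl => by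
    obtain ⟨U, hU, hpU⟩ := hp
    obtain ⟨g, hg, h1⟩ := hS U hU p hpU hl
    exact ⟨g, hg, fun q hq hq' => ⟨U, hU, h1 q hq hq'⟩⟩

theorem isOpenY_iff {U : Set (PY W)} :
    IsOpen U ↔ ∀ p ∈ U, Lim p.pt →
      ∃ g, g < p.pt ∧ ∀ q : PY W, g < q.pt → q.pt ≤ p.pt → q ∈ U := Iff.rfl

/-- the projection -/
def proj (e : W → W → Ω) (p : PX e) : PY W := ⟨p.pt⟩

theorem proj_surjective (e : W → W → Ω) : Function.Surjective (proj e) :=
  fun y => ⟨⟨y.pt, 0⟩, rfl⟩

theorem proj_countable (e : W → W → Ω) (y : PY W) : (proj e ⁻¹' {y}).Countable := by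
  refine (Set.countable_range (fun n : ℕ => (⟨y.pt, n⟩ : PX e))).mono ?_
  intro p hp
  have h1 : proj e p = y := hp
  refine ⟨p.lev, ?_⟩
  rw [← h1]
  rfl

theorem proj_continuous (e : W → W → Ω) : Continuous (proj e) := by
  refine continuous_def.mpr fun U hU => ?_
  rw [isOpenX_iff]
  intro p hp hl
  obtain ⟨g, hg, h1⟩ := (isOpenY_iff.mp hU) (proj e p) hp hl
  exact ⟨g, hg, fun q hq => h1 (proj e q) hq.1 hq.2.1⟩

theorem proj_closed (e : W → W → Ω) : IsClosedMap (proj e) := by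
  intro C hC
  rw [← isOpen_compl_iff] at hC ⊢
  rw [isOpenX_iff] at hC
  rw [isOpenY_iff]
  intro p hp hl
  have h1 : ∀ n : ℕ, ∃ g, g < p.pt ∧ nbX e g (⟨p.pt, n⟩ : PX e) ⊆ Cᶜ := by
    intro n
    refine hC ⟨p.pt, n⟩ ?_ hl
    intro hcon
    exact hp ⟨⟨p.pt, n⟩, hcon, rfl⟩
  choose g hg hg' using h1
  obtain ⟨b, hb, hb'⟩ := hl (Set.range g) (Set.countable_range g)
    (by rintro _ ⟨n, rfl⟩; exact hg n)
  refine ⟨b, hb, fun q hq hqp => ?_⟩
  rintro ⟨r, hr, hrq⟩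
  have hrq' : r.pt = q.pt := congrArg PY.pt hrq
  refine hg' (r.lev + rho e r.pt p.pt) ?_ hr
  refine ⟨?_, ?_, rfl⟩
  · exact lt_trans (hb' _ ⟨_, rfl⟩) (by rw [hrq']; exact hq)
  · exact le_of_eq_of_le hrq' hqp

/-- Open sets that meet the level of `p` in `p` only. -/
def nbAll (e : W → W → Ω) (p : PX e) : Set (PX e) :=
  {q | q.pt ≤ p.pt ∧ q.lev + rho e q.pt p.pt = p.lev}

theorem isOpen_nbAll (e : W → W → Ω) (hinj : ∀ d, Set.InjOn (e d) (Set.Iio d))
    (hΩ : ∀ i : Ω, (Set.Iic i).Countable) (p : PX e) : IsOpen (nbAll e p) := by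
  rw [isOpenX_iff]
  intro r hr hl
  obtain ⟨g, hg, h1⟩ := rho_add e hinj hΩ hl p.pt hr.1
  refine ⟨g, hg, fun q hq => ⟨hq.2.1.trans hr.1, ?_⟩⟩
  have h2 := h1 q.pt hq.1 hq.2.1
  have h3 := hq.2.2
  have h4 := hr.2
  omega

theorem isOpen_compl_nbAll (e : W → W → Ω) (hinj : ∀ d, Set.InjOn (e d) (Set.Iio d))
    (hΩ : ∀ i : Ω, (Set.Iic i).Countable) (p : PX e) : IsOpen (nbAll e p)ᶜ := by
  rw [isOpenX_iff]
  intro r hr hl
  rcases lt_or_ge p.pt r.pt with h | h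
  · refine ⟨p.pt, h, fun q hq hcon => ?_⟩
    exact absurd hq.1 (not_lt.mpr hcon.1)
  · obtain ⟨g, hg, h1⟩ := rho_add e hinj hΩ hl p.pt h
    refine ⟨g, hg, fun q hq hcon => hr ⟨h, ?_⟩⟩
    have h2 := h1 q.pt hq.1 hq.2.1
    have h3 := hq.2.2
    have h4 := hcon.2
    omega

theorem isOpen_ptlt (e : W → W → Ω) (g : W) : IsOpen {q : PX e | g < q.pt} := by
  rw [isOpenX_iff]
  intro r hr _
  exact ⟨g, hr, fun q hq => hq.1⟩

theorem isOpen_ptle (e : W → W → Ω) (g : W) : IsOpen {q : PX e | q.pt ≤ g} := by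
  rw [isOpenX_iff]
  intro r hr hl
  obtain ⟨b, hb⟩ := hl.exists_lt
  exact ⟨b, hb, fun q hq => hq.2.1.trans hr⟩

theorem isClopen_nbX (e : W → W → Ω) (hinj : ∀ d, Set.InjOn (e d) (Set.Iio d))
    (hΩ : ∀ i : Ω, (Set.Iic i).Countable) (g : W) (p : PX e) : IsClopen (nbX e g p) := by
  have h1 : nbX e g p = {q : PX e | g < q.pt} ∩ nbAll e p := by
    ext q
    exact Iff.rfl
  rw [h1]
  refine IsClopen.inter ⟨?_, isOpen_ptlt e g⟩ ⟨⟨isOpen_compl_nbAll e hinj hΩ p⟩,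
    isOpen_nbAll e hinj hΩ p⟩
  constructor
  have h2 : {q : PX e | g < q.pt}ᶜ = {q : PX e | q.pt ≤ g} := by
    ext q
    exact not_lt
  rw [h2]
  exact isOpen_ptle e g

theorem t1X (e : W → W → Ω) (hinj : ∀ d, Set.InjOn (e d) (Set.Iio d))
    (hΩ : ∀ i : Ω, (Set.Iic i).Countable) : T1Space (PX e) := by
  refine ⟨fun a => ⟨?_⟩⟩
  rw [isOpenX_iff]
  intro r hr hl
  rcases lt_trichotomy a.pt r.pt with h | h | h
  · refine ⟨a.pt, h, fun q hq hqa => ?_⟩
    rw [Set.mem_singleton_iff.mp hqa] at hq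
    exact lt_irrefl _ hq.1
  · obtain ⟨b, hb⟩ := hl.exists_lt
    refine ⟨b, hb, fun q hq hqa => hr ?_⟩
    rw [Set.mem_singleton_iff.mp hqa] at hq
    have h2 := hq.2.2
    rw [h, rho_self] at h2
    rw [Set.mem_singleton_iff]
    exact (PX.ext h h2).symm
  · obtain ⟨b, hb⟩ := hl.exists_lt
    refine ⟨b, hb, fun q hq hqa => ?_⟩
    rw [Set.mem_singleton_iff.mp hqa] at hq
    exact absurd hq.2.1 (not_le.mpr h)

theorem basisX (e : W → W → Ω) (hinj : ∀ d, Set.InjOn (e d) (Set.Iio d))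
    (hΩ : ∀ i : Ω, (Set.Iic i).Countable) :
    IsTopologicalBasis {s : Set (PX e) | IsClopen s} := by
  have := t1X e hinj hΩ
  refine isTopologicalBasis_of_isOpen_of_nhds (fun s hs => IsClopen.isOpen hs) ?_
  intro a U haU hU
  by_cases hl : Lim a.pt
  · obtain ⟨g, hg, h1⟩ := (isOpenX_iff.mp hU) a haU hl
    refine ⟨nbX e g a, isClopen_nbX e hinj hΩ g a, ⟨hg, le_refl _, ?_⟩, h1⟩
    rw [rho_self]
    rfl
  · refine ⟨{a}, ⟨isClosed_singleton, ?_⟩, Set.mem_singleton a, Set.singleton_subset_iff.mpr haU⟩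
    rw [isOpenX_iff]
    intro r hr hlr
    rw [Set.mem_singleton_iff.mp hr] at hlr
    exact absurd hlr hl

theorem wtrX (e : W → W → Ω) (hinj : ∀ d, Set.InjOn (e d) (Set.Iio d))
    (hΩ : ∀ i : Ω, (Set.Iic i).Countable) : WeaklyThetaRefinable (PX e) := by
  intro U hU hcov
  have h1 : ∀ p : PX e, ∃ u ∈ U, p ∈ u := by
    intro p
    have : p ∈ ⋃₀ U := by rw [hcov]; exact Set.mem_univ p
    exact this
  choose u hu hpu using h1
  refine ⟨fun n => {v | ∃ p : PX e, p.lev = n ∧ v = u p ∩ nbAll e p}, ?_, ?_⟩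
  · rintro n v ⟨p, -, rfl⟩
    exact ⟨(hU _ (hu p)).inter (isOpen_nbAll e hinj hΩ p), u p, hu p, Set.inter_subset_left⟩
  · intro x
    refine ⟨x.lev, ⟨u x ∩ nbAll e x, ⟨x, rfl, rfl⟩, hpu x, le_refl _, ?_⟩, ?_⟩
    · rw [rho_self]
      rfl
    · refine (Set.finite_singleton (u x ∩ nbAll e x)).subset ?_
      rintro v ⟨⟨p, hp, rfl⟩, hxv⟩
      have h2 : x.pt ≤ p.pt := hxv.2.1
      have h3 : x.lev + rho e x.pt p.pt = p.lev := hxv.2.2
      have h4 : rho e x.pt p.pt = 0 := by omega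
      have h5 : x.pt = p.pt := rho_eq_zero e h2 h4
      have h6 : x = p := PX.ext h5 hp.symm
      rw [Set.mem_singleton_iff, h6]

theorem isOpenY_le (g : W) : IsOpen {q : PY W | q.pt ≤ g} := by
  rw [isOpenY_iff]
  intro r hr hl
  obtain ⟨b, hb⟩ := hl.exists_lt
  exact ⟨b, hb, fun q _ hq => hq.trans hr⟩

theorem isOpenY_lt (g : W) : IsOpen {q : PY W | g < q.pt} := by
  rw [isOpenY_iff]
  intro r hr _
  exact ⟨g, hr, fun q hq _ => hq⟩

theorem isClopenY (g b : W) : IsClopen {q : PY W | g < q.pt ∧ q.pt ≤ b} := by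
  have key : ∀ c : W, IsClopen {q : PY W | q.pt ≤ c} := by
    intro c
    refine ⟨⟨?_⟩, isOpenY_le c⟩
    have h2 : {q : PY W | q.pt ≤ c}ᶜ = {q : PY W | c < q.pt} := by
      ext q
      exact not_le
    rw [h2]
    exact isOpenY_lt c
  have h1 : {q : PY W | g < q.pt ∧ q.pt ≤ b} = {q : PY W | q.pt ≤ g}ᶜ ∩ {q : PY W | q.pt ≤ b} := by
    ext q
    exact and_congr_left (fun _ => not_le.symm)
  rw [h1]
  exact (key g).compl.inter (key b)

theorem t1Y : T1Space (PY W) := by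
  refine ⟨fun a => ⟨?_⟩⟩
  rw [isOpenY_iff]
  intro r hr hl
  rcases lt_trichotomy a.pt r.pt with h | h | h
  · refine ⟨a.pt, h, fun q hq _ hqa => ?_⟩
    rw [Set.mem_singleton_iff.mp hqa] at hq
    exact lt_irrefl _ hq
  · exact absurd (Set.mem_singleton_iff.mpr (PY.ext h).symm) hr
  · obtain ⟨b, hb⟩ := hl.exists_lt
    refine ⟨b, hb, fun q _ hq hqa => ?_⟩
    rw [Set.mem_singleton_iff.mp hqa] at hq
    exact absurd hq (not_le.mpr h)

theorem basisY : IsTopologicalBasis {s : Set (PY W) | IsClopen s} := by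
  have : T1Space (PY W) := t1Y
  refine isTopologicalBasis_of_isOpen_of_nhds (fun s hs => IsClopen.isOpen hs) ?_
  intro a U haU hU
  by_cases hl : Lim a.pt
  · obtain ⟨g, hg, h1⟩ := (isOpenY_iff.mp hU) a haU hl
    exact ⟨_, isClopenY g a.pt, ⟨hg, le_refl _⟩, fun q hq => h1 q hq.1 hq.2⟩
  · refine ⟨{a}, ⟨isClosed_singleton, ?_⟩, Set.mem_singleton a, Set.singleton_subset_iff.mpr haU⟩
    rw [isOpenY_iff]
    intro r hr hlr
    rw [Set.mem_singleton_iff.mp hr] at hlr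
    exact absurd hlr hl

end Spaces

section Bounding

/-- every set of at most `k` many points is strictly bounded, if initial segments have at most `k`
points and the whole order has more than `k` points. -/
theorem exists_bound {T : Type} [LinearOrder T] {k : Cardinal.{0}} (hk : ℵ₀ ≤ k)
    (hT : k < #T) (hI : ∀ i : T, #(Set.Iic i) ≤ k) (s : Set T) (hs : #s ≤ k) :
    ∃ b, ∀ x ∈ s, x < b := by
  by_contra hcon
  push Not at hcon
  have h1 : (Set.univ : Set T) ⊆ ⋃ x ∈ s, Set.Iic x := by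
    intro b _
    obtain ⟨x, hx, hbx⟩ := hcon b
    exact Set.mem_biUnion hx hbx
  have h2 : #T ≤ k := by
    calc #T = #(Set.univ : Set T) := (Cardinal.mk_univ).symm
      _ ≤ #(⋃ x ∈ s, Set.Iic x) := Cardinal.mk_le_mk_of_subset h1
      _ ≤ #s * ⨆ x : s, #(Set.Iic x.1) := Cardinal.mk_biUnion_le _ _
      _ ≤ k * k := mul_le_mul' hs (ciSup_le' (fun x => hI x.1))
      _ = k := Cardinal.mul_eq_self hk
  exact absurd h2 (not_le.mpr hT)

/-- Closing off: `d` of uncountable cofinality and closed under `g`. -/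
theorem exists_closed {W Ω : Type} [LinearOrder W] [WellFoundedLT W] [LinearOrder Ω]
    [WellFoundedLT Ω] (hΩ1 : ∀ s : Set Ω, s.Countable → ∃ b, ∀ x ∈ s, x < b)
    (hΩ2 : ∀ i : Ω, (Set.Iio i).Countable) (hΩ3 : #Ω ≤ ℵ₁)
    (hW1 : ∀ s : Set W, #s ≤ ℵ₁ → ∃ b, ∀ x ∈ s, x < b)
    (hW2 : ∀ i : W, #(Set.Iic i) ≤ ℵ₁) (g : W → W) :
    ∃ d, Lim d ∧ ∀ z, z < d → g z < d := by
  have hB : ∀ w : W, ∃ b, ∀ z, z ≤ w → g z < b := by
    intro w
    obtain ⟨b, hb⟩ := hW1 (g '' Set.Iic w) (Cardinal.mk_image_le.trans (hW2 w))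
    exact ⟨b, fun z hz => hb _ ⟨z, hz, rfl⟩⟩
  choose B hB using hB
  have hC : ∀ w : W, ∃ b, w < b ∧ B w ≤ b := by
    intro w
    obtain ⟨b, hb⟩ := hW1 {w, B w} (by
      refine le_trans (Cardinal.mk_le_aleph0_iff.mpr ?_) (Cardinal.aleph0_le_aleph 1)
      exact ((Set.finite_singleton (B w)).insert w).countable.to_subtype)
    exact ⟨b, hb _ (Set.mem_insert _ _), (hb _ (Set.mem_insert_of_mem _ rfl)).le⟩
  choose C hC hC' using hC
  have hD : ∀ s : Set W, ∃ b, s.Countable → ∀ x ∈ s, x < b := by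
    intro s
    by_cases h : s.Countable
    · obtain ⟨b, hb⟩ := hW1 s ((Cardinal.mk_le_aleph0_iff.mpr h.to_subtype).trans
        (Cardinal.aleph0_le_aleph 1))
      exact ⟨b, fun _ => hb⟩
    · obtain ⟨b, -⟩ := hW1 ∅ (by simp)
      exact ⟨b, fun h' => absurd h' h⟩
  choose D hD using hD
  let F : (i : Ω) → ((j : Ω) → j < i → W) → W :=
    fun i f => D (Set.range (fun j : Set.Iio i => C (f j.1 j.2)))
  let s : Ω → W := (wellFounded_lt : WellFounded ((· < ·) : Ω → Ω → Prop)).fix F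
  have hs : ∀ i, s i = D (Set.range (fun j : Set.Iio i => C (s j.1))) := by
    intro i
    exact WellFounded.fix_eq _ _ _
  have hs2 : ∀ i j, j < i → C (s j) < s i := by
    intro i j hji
    rw [hs i]
    have : Countable (Set.Iio i) := (hΩ2 i).to_subtype
    exact hD _ (Set.countable_range _) _ ⟨⟨j, hji⟩, rfl⟩
  have hmax : ∀ i : Ω, ∃ j, i < j := by
    intro i
    obtain ⟨j, hj⟩ := hΩ1 {i} (Set.countable_singleton i)
    exact ⟨j, hj i rfl⟩
  obtain ⟨b0, hb0⟩ := hW1 (Set.range s) (Cardinal.mk_range_le.trans hΩ3)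
  obtain ⟨d, hd, hdmin⟩ := WellFounded.has_min
    (wellFounded_lt : WellFounded ((· < ·) : W → W → Prop)) {d : W | ∀ i, s i < d}
    ⟨b0, fun i => hb0 _ ⟨i, rfl⟩⟩
  have hz : ∀ z, z < d → ∃ i, z ≤ s i := by
    intro z hz
    by_contra hcon
    push Not at hcon
    exact hdmin z hcon hz
  refine ⟨d, ?_, ?_⟩
  · intro A hA hAd
    have h1 : ∀ a : A, ∃ i, a.1 ≤ s i := fun a => hz a.1 (hAd a.1 a.2)
    choose i hi using h1
    have : Countable A := hA.to_subtype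
    obtain ⟨j, hj⟩ := hΩ1 (Set.range i) (Set.countable_range i)
    refine ⟨s j, hd j, fun a ha => ?_⟩
    have h2 := hi ⟨a, ha⟩
    have h3 := hs2 j (i ⟨a, ha⟩) (hj _ ⟨_, rfl⟩)
    exact lt_of_le_of_lt h2 ((hC _).trans h3)
  · intro z hzd
    obtain ⟨i, hi⟩ := hz z hzd
    obtain ⟨j, hj⟩ := hmax i
    calc g z < B (s i) := hB _ _ hi
      _ ≤ C (s i) := hC' _
      _ < s j := hs2 j i hj
      _ < d := hd j

theorem not_wtrY {W Ω : Type} [LinearOrder W] [WellFoundedLT W] [LinearOrder Ω]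
    [WellFoundedLT Ω] (hΩ1 : ∀ s : Set Ω, s.Countable → ∃ b, ∀ x ∈ s, x < b)
    (hΩ2 : ∀ i : Ω, (Set.Iio i).Countable) (hΩ3 : #Ω ≤ ℵ₁)
    (hW1 : ∀ s : Set W, #s ≤ ℵ₁ → ∃ b, ∀ x ∈ s, x < b)
    (hW2 : ∀ i : W, #(Set.Iic i) ≤ ℵ₁) : ¬ WeaklyThetaRefinable (PY W) := by
  intro hY
  obtain ⟨V, hV, hpt⟩ := hY {u | ∃ c : W, u = {q : PY W | q.pt ≤ c}}
    (by rintro _ ⟨c, rfl⟩; exact isOpenY_le c)
    (by
      rw [Set.eq_univ_iff_forall]
      intro x
      exact ⟨_, ⟨x.pt, rfl⟩, le_refl x.pt⟩)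
  -- bounds for the finitely many members of the n-th family around a point
  have h1 : ∀ (n : ℕ) (y : PY W), ∃ b : W,
      {v | v ∈ V n ∧ y ∈ v}.Finite → ∀ v ∈ V n, y ∈ v → ∀ q ∈ v, q.pt < b := by
    intro n y
    by_cases hf : {v | v ∈ V n ∧ y ∈ v}.Finite
    · have h2 : ∀ v : {v | v ∈ V n ∧ y ∈ v}, ∃ c : W, v.1 ⊆ {q : PY W | q.pt ≤ c} := by
        rintro ⟨v, hv, -⟩
        obtain ⟨-, u, ⟨c, rfl⟩, hvu⟩ := hV n v hv
        exact ⟨c, hvu⟩
      choose c hc using h2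
      have := hf.countable.to_subtype
      obtain ⟨b, hb⟩ := hW1 (Set.range c) ((Cardinal.mk_le_aleph0_iff.mpr
        (Set.countable_range c).to_subtype).trans (Cardinal.aleph0_le_aleph 1))
      refine ⟨b, fun _ v hv hyv q hq => ?_⟩
      exact lt_of_le_of_lt (hc ⟨v, hv, hyv⟩ hq) (hb _ ⟨_, rfl⟩)
    · exact ⟨y.pt, fun h => absurd h hf⟩
  choose bd hbd using h1
  -- next element of the n-th good set
  let E : ℕ → Set (PY W) := fun n =>
    {y | {v | v ∈ V n ∧ y ∈ v}.Nonempty ∧ {v | v ∈ V n ∧ y ∈ v}.Finite}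
  have h2 : ∀ (n : ℕ) (z : W), ∃ y : PY W, (∃ x ∈ E n, z < x.pt) → y ∈ E n ∧ z < y.pt := by
    intro n z
    by_cases h : ∃ x ∈ E n, z < x.pt
    · obtain ⟨x, hx, hzx⟩ := h
      exact ⟨x, fun _ => ⟨hx, hzx⟩⟩
    · exact ⟨⟨z⟩, fun h' => absurd h' h⟩
  choose nx hnx using h2
  have h3 : ∀ z : W, ∃ b : W, ∀ n, (nx n z).pt < b ∧ bd n ⟨z⟩ < b := by
    intro z
    obtain ⟨b, hb⟩ := hW1 ((Set.range fun n => (nx n z).pt) ∪ (Set.range fun n => bd n ⟨z⟩))
      ((Cardinal.mk_le_aleph0_iff.mpr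
        ((Set.countable_range _).union (Set.countable_range _)).to_subtype).trans
        (Cardinal.aleph0_le_aleph 1))
    exact ⟨b, fun n => ⟨hb _ (Or.inl ⟨n, rfl⟩), hb _ (Or.inr ⟨n, rfl⟩)⟩⟩
  choose g hg using h3
  obtain ⟨d, hd, hdg⟩ := exists_closed hΩ1 hΩ2 hΩ3 hW1 hW2 g
  obtain ⟨n, hn⟩ := hpt ⟨d⟩
  obtain ⟨v, hv, hdv⟩ := hn.1
  obtain ⟨c, hc, hcv⟩ := (isOpenY_iff.mp (hV n v hv).1) ⟨d⟩ hdv hd
  have h4 := hnx n c ⟨⟨d⟩, hn, hc⟩
  have h5 : (nx n c).pt < d := lt_trans (hg c n).1 (hdg c hc)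
  have h6 : nx n c ∈ v := hcv _ h4.2 h5.le
  have h7 : d < bd n (nx n c) := hbd n (nx n c) h4.1.2 v hv h6 ⟨d⟩ hdv
  have h8 : bd n (nx n c) < d := lt_trans (hg (nx n c).pt n).2 (hdg _ h5)
  exact lt_asymm h7 h8

end Bounding

/-- The well-order of the least order type of a successor cardinal `succ k`. -/
theorem order_exist (k : Cardinal.{0}) (hk : ℵ₀ ≤ k) : ∃ (T : Type) (_ : LinearOrder T),
    WellFoundedLT T ∧ #T = Order.succ k ∧ (∀ i : T, #(Set.Iic i) ≤ k) := by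
  refine ⟨(Order.succ k).ord.ToType, inferInstance, inferInstance, Cardinal.mk_ord_toType _, ?_⟩
  intro i
  have h1 : #(Set.Iic i) < #((Order.succ k).ord.ToType) := by
    refine Cardinal.mk_Iic_lt i (by simp) ?_
    rw [Cardinal.mk_ord_toType]
    exact hk.trans (Order.le_succ k)
  rw [Cardinal.mk_ord_toType] at h1
  exact Order.lt_succ_iff.mp h1

/-- The concrete orders: the first and the second uncountable cardinal. -/
theorem orders_exist : ∃ (W Ω : Type) (_ : LinearOrder W) (_ : LinearOrder Ω),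
    WellFoundedLT W ∧ WellFoundedLT Ω ∧
    (∀ s : Set Ω, s.Countable → ∃ b, ∀ x ∈ s, x < b) ∧
    (∀ i : Ω, (Set.Iic i).Countable) ∧ #Ω ≤ ℵ₁ ∧
    (∀ s : Set W, #s ≤ ℵ₁ → ∃ b, ∀ x ∈ s, x < b) ∧
    (∀ i : W, #(Set.Iic i) ≤ ℵ₁) ∧
    ∃ e : W → W → Ω, ∀ d, Set.InjOn (e d) (Set.Iio d) := by
  obtain ⟨W, i1, i2, hW, hWI⟩ := order_exist ℵ₁ (Cardinal.aleph0_le_aleph 1)
  obtain ⟨Ω, i3, i4, hΩ, hΩI⟩ := order_exist ℵ₀ le_rfl
  refine ⟨W, Ω, i1, i3, i2, i4, ?_, ?_, ?_, ?_, hWI, ?_⟩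
  · intro s hs
    refine exists_bound le_rfl ?_ hΩI s (Cardinal.mk_le_aleph0_iff.mpr hs.to_subtype)
    rw [hΩ]
    exact Order.lt_succ ℵ₀
  · intro i
    have := Cardinal.mk_le_aleph0_iff.mp (hΩI i)
    exact Set.to_countable _
  · rw [hΩ, Cardinal.succ_aleph0]
  · intro s hs
    refine exists_bound (Cardinal.aleph0_le_aleph 1) ?_ hWI s hs
    rw [hW]
    exact Order.lt_succ ℵ₁
  · have hne : Nonempty Ω := by
      rw [← Cardinal.mk_ne_zero_iff, hΩ]
      exact (lt_trans Cardinal.aleph0_pos (Order.lt_succ ℵ₀)).ne'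
    have h1 : ∀ d : W, ∃ f : W → Ω, Set.InjOn f (Set.Iio d) := by
      intro d
      have h2 : #(Set.Iio d) ≤ #Ω := by
        rw [hΩ, Cardinal.succ_aleph0]
        exact (Cardinal.mk_le_mk_of_subset (fun x hx => le_of_lt hx)).trans (hWI d)
      obtain ⟨f⟩ := (Cardinal.le_def _ _).mp h2
      classical
      refine ⟨fun x => if h : x < d then f ⟨x, h⟩ else Classical.arbitrary Ω, ?_⟩
      intro x hx y hy hxy
      have hx' : x < d := hx
      have hy' : y < d := hy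
      simp only [dif_pos hx', dif_pos hy'] at hxy
      exact congrArg Subtype.val (f.injective hxy)
    choose e he using h1
    exact ⟨e, he⟩

theorem result : ∃ (X Y : Type) (_ : TopologicalSpace X) (_ : TopologicalSpace Y) (f : X → Y),
    T35Space X ∧ T35Space Y ∧
    IsTopologicalBasis {s : Set X | IsClopen s} ∧ IsTopologicalBasis {s : Set Y | IsClopen s} ∧
    WeaklyThetaRefinable X ∧
    Continuous f ∧ Function.Surjective f ∧ IsClosedMap f ∧ (∀ y, (f ⁻¹' {y}).Countable) ∧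
    ¬ WeaklyThetaRefinable Y := by
  obtain ⟨W, Ω, i1, i2, i3, i4, hΩ1, hΩ2, hΩ3, hW1, hW2, e, he⟩ := orders_exist
  have : T1Space (PX e) := t1X e he hΩ2
  have : T1Space (PY W) := t1Y
  have : CompletelyRegularSpace (PX e) :=
    CompletelyRegularSpace.of_isTopologicalBasis_clopens (basisX e he hΩ2)
  have : CompletelyRegularSpace (PY W) :=
    CompletelyRegularSpace.of_isTopologicalBasis_clopens basisY
  exact ⟨PX e, PY W, inferInstance, inferInstance, proj e, ⟨⟩, ⟨⟩, basisX e he hΩ2, basisY,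
    wtrX e he hΩ2, proj_continuous e, proj_surjective e, proj_closed e, proj_countable e,
    not_wtrY hΩ1 (fun i => (hΩ2 i).mono (fun x hx => le_of_lt hx)) hΩ3 hW1 hW2⟩

end Pool.Agent.Results.MP_55e6a3_gt.ClosedImage
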